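import Pool.Agent.W290.HexBuild

set_option autoImplicit false

namespace Pool.Agent.Results.MP_09d438_co.HexagonThreePoints

open Pool.Agent.W290

/-- A generalized hexagon (incidence graph of diameter 6 and girth 12, finite or infinite) in which
every line has exactly three points has at most nine lines through each point. -/
theorem result {P L : Type*} (I : P → L → Prop)
    (hdiam : (SimpleGraph.fromRel
      (fun x y : P ⊕ L => ∃ p l, x = Sum.inl p ∧ y = Sum.inr l ∧ I p l)).ediam = 6)
    (hgirth : (SimpleGraph.fromRel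
      (fun x y : P ⊕ L => ∃ p l, x = Sum.inl p ∧ y = Sum.inr l ∧ I p l)).egirth = 12)
    (hline : ∀ l : L, {p : P | I p l}.ncard = 3) (p : P) :
    {l : L | I p l}.Finite ∧ {l : L | I p l}.ncard ≤ 9 := by
  have : Nonempty P := ⟨p⟩
  obtain ⟨H, hH⟩ := HexBuild.hexOf I hdiam hgirth hline
  have h := H.bound p
  rw [hH] at h
  have hfin : {l : L | I p l}.Finite := by
    rw [← Set.encard_lt_top_iff]
    exact lt_of_le_of_lt h (ENat.natCast_lt_top 9)
  refine ⟨hfin, ?_⟩
  rw [← hfin.cast_ncard_eq] at h
  exact_mod_cast h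

end Pool.Agent.Results.MP_09d438_co.HexagonThreePoints
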